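import Mathlib
import Pool.Agent.H27.LeavB

open Pool.Agent.H27.Leav

theorem Pool.Agent.Results.MP_26bbbf_al.NotCrossed.result :
    ∃ (R : Type) (_ : Ring R) (ℛ : ℤ → AddSubgroup R),
      IsGraded ℛ ∧ IsStrong ℛ ∧ IsControlled ℛ ∧ ∀ x ∈ ℛ 1, ¬ IsUnit x :=
  ⟨L, inferInstance, gr, graded, strong, controlled, not_unit⟩
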